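import Mathlib

/-!
# Upper minus domination versus upper domination: the combinatorial core

`V` is the vertex set of a cubic graph whose vertices are partitioned into triangles, `H` is the set of the triangles, `τ v` the
triangle of `v` and `out v` the neighbour of `v` outside its triangle.
-/

namespace Pool.Agent.TRF

open Finset

variable {V H : Type*} [Fintype V] [DecidableEq V] [Fintype H] [DecidableEq H]

/-- the vertices of the triangle `h` -/
def fib (τ : V → H) (h : H) : Finset V := univ.filter fun v => τ v = h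

theorem mem_fib {τ : V → H} {h : H} {v : V} : v ∈ fib τ h ↔ τ v = h := by
  simp [fib]

/-- the closed neighbourhood of `v` -/
def nb (τ : V → H) (out : V → V) (v : V) : Finset V := insert (out v) (fib τ (τ v))

theorem mem_nb {τ : V → H} {out : V → V} {u v : V} : u ∈ nb τ out v ↔ u = out v ∨ τ u = τ v := by
  rw [nb, mem_insert, mem_fib]

/-- the hypotheses -/
structure IsTF (τ : V → H) (out : V → V) : Prop where
  card : ∀ h, (fib τ h).card = 3
  inv : ∀ v, out (out v) = v
  ne : ∀ v, τ (out v) ≠ τ v

theorem IsTF.inj {τ : V → H} {out : V → V} (h : IsTF τ out) : Function.Injective out := by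
  intro u v huv
  rw [← h.inv u, huv, h.inv]

/-- a matching of the triangles, given by one end of each of its edges -/
structure IsM (τ : V → H) (out : V → V) (A : Finset V) : Prop where
  m1 : ∀ a ∈ A, ∀ b ∈ A, τ a = τ b → a = b
  m2 : ∀ a ∈ A, ∀ b ∈ A, τ (out a) = τ (out b) → a = b
  m3 : ∀ a ∈ A, ∀ b ∈ A, τ a ≠ τ (out b)

/-- the triangle `h` is covered by the matching -/
def Cov (τ : V → H) (out : V → V) (A : Finset V) (h : H) : Prop := ∃ a ∈ A, τ a = h ∨ τ (out a) = h

open Classical in
/-- the minus dominating function of a matching -/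
noncomputable def fA (τ : V → H) (out : V → V) (A : Finset V) (v : V) : ℤ :=
  if v ∈ A then -1 else if out v ∈ A then 0 else if Cov τ out A (τ v) then 1 else 0

/-- the sum of `f` over the closed neighbourhood -/
def cs (τ : V → H) (out : V → V) (f : V → ℤ) (v : V) : ℤ := ∑ u ∈ nb τ out v, f u

theorem cs_eq {τ : V → H} {out : V → V} (h : IsTF τ out) (f : V → ℤ) (v : V) :
    cs τ out f v = f (out v) + ∑ u ∈ fib τ (τ v), f u := by
  rw [cs, nb, sum_insert]
  rw [mem_fib]
  exact h.ne v

theorem sum_fib_neg {τ : V → H} {out : V → V} (h : IsTF τ out) {A : Finset V} (hA : IsM τ out A) {a : V}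
    (ha : a ∈ A) : ∑ u ∈ fib τ (τ a), fA τ out A u = 1 := by
  classical
  have h1 : a ∈ fib τ (τ a) := mem_fib.2 rfl
  rw [← add_sum_erase _ _ h1]
  have h2 : ∀ u ∈ (fib τ (τ a)).erase a, fA τ out A u = 1 := by
    intro u hu
    rw [mem_erase, mem_fib] at hu
    rw [fA, if_neg, if_neg, if_pos]
    · exact ⟨a, ha, Or.inl hu.2.symm⟩
    · intro h3
      apply hA.m3 a ha _ h3
      rw [h.inv, hu.2]
    · intro h3
      exact hu.1 (hA.m1 u h3 a ha hu.2)
  rw [sum_congr rfl h2, sum_const, card_erase_of_mem h1, h.card, fA, if_pos ha]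
  norm_num

theorem sum_fib_pos {τ : V → H} {out : V → V} (h : IsTF τ out) {A : Finset V} (hA : IsM τ out A) {a : V}
    (ha : a ∈ A) : ∑ u ∈ fib τ (τ (out a)), fA τ out A u = 2 := by
  classical
  have h1 : out a ∈ fib τ (τ (out a)) := mem_fib.2 rfl
  rw [← add_sum_erase _ _ h1]
  have h2 : ∀ u ∈ (fib τ (τ (out a))).erase (out a), fA τ out A u = 1 := by
    intro u hu
    rw [mem_erase, mem_fib] at hu
    rw [fA, if_neg, if_neg, if_pos]
    · exact ⟨a, ha, Or.inr hu.2.symm⟩
    · intro h3
      apply hu.1
      have h4 := hA.m2 _ h3 a ha (by rw [h.inv, hu.2])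
      rw [← h4, h.inv]
    · intro h3
      exact hA.m3 u h3 a ha hu.2
  have h5 : out a ∉ A := fun h3 => hA.m3 _ h3 a ha rfl
  rw [sum_congr rfl h2, sum_const, card_erase_of_mem h1, h.card, fA, if_neg h5, h.inv, if_pos ha]
  norm_num

theorem sum_fib_zero {τ : V → H} {out : V → V} (h : IsTF τ out) {A : Finset V} {t : H}
    (ht : ¬ Cov τ out A t) : ∀ u, τ u = t → fA τ out A u = 0 := by
  classical
  intro u hu
  rw [fA, if_neg, if_neg, if_neg]
  · rwa [hu]
  · intro h3
    exact ht ⟨_, h3, Or.inr (by rw [h.inv, hu])⟩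
  · intro h3
    exact ht ⟨_, h3, Or.inl hu⟩

/-- the weight of the function of a matching -/
theorem sum_fA {τ : V → H} {out : V → V} (h : IsTF τ out) {A : Finset V} (hA : IsM τ out A) :
    ∑ v, fA τ out A v = 3 * A.card := by
  classical
  have h1 : ∑ v, fA τ out A v = ∑ t : H, ∑ v ∈ fib τ t, fA τ out A v := by
    rw [← sum_fiberwise (s := univ) (g := τ)]
    rfl
  have h2 : ∀ t : H, ∑ v ∈ fib τ t, fA τ out A v
      = (∑ a ∈ A, if τ a = t then 1 else 0) + ∑ a ∈ A, if τ (out a) = t then 2 else 0 := by
    intro t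
    by_cases hc : Cov τ out A t
    · obtain ⟨a, ha, h3 | h3⟩ := hc
      · subst h3
        rw [sum_fib_neg h hA ha, sum_eq_single a, if_pos rfl, sum_eq_zero, add_zero]
        · intro b hb
          rw [if_neg]
          exact fun h4 => hA.m3 a ha b hb h4.symm
        · intro b hb hba
          rw [if_neg]
          exact fun h4 => hba (hA.m1 b hb a ha h4)
        · exact fun h4 => absurd ha h4
      · subst h3
        rw [sum_fib_pos h hA ha, sum_eq_zero, zero_add, sum_eq_single a, if_pos rfl]
        · intro b hb hba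
          rw [if_neg]
          exact fun h4 => hba (hA.m2 b hb a ha h4)
        · exact fun h4 => absurd ha h4
        · intro b hb
          rw [if_neg]
          exact fun h4 => hA.m3 b hb a ha h4
    · rw [sum_eq_zero, sum_eq_zero, sum_eq_zero, add_zero]
      · intro a ha
        rw [if_neg]
        exact fun h3 => hc ⟨a, ha, Or.inr h3⟩
      · intro a ha
        rw [if_neg]
        exact fun h3 => hc ⟨a, ha, Or.inl h3⟩
      · intro u hu
        exact sum_fib_zero h hc u (mem_fib.1 hu)
  rw [h1, sum_congr rfl fun t _ => h2 t, sum_add_distrib, sum_comm, sum_comm (s := univ) (t := A)]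
  simp only [sum_ite_eq, mem_univ, if_true, sum_const]
  ring

theorem fA_val {τ : V → H} {out : V → V} {A : Finset V} (v : V) :
    fA τ out A v = -1 ∨ fA τ out A v = 0 ∨ fA τ out A v = 1 := by
  rw [fA]
  split_ifs <;> simp

/-- a matching of maximum size is maximal -/
theorem max_cov {τ : V → H} {out : V → V} (h : IsTF τ out) {A : Finset V} (hA : IsM τ out A)
    (hmax : ∀ B, IsM τ out B → B.card ≤ A.card) (v : V) (hv : ¬ Cov τ out A (τ v)) :
    Cov τ out A (τ (out v)) := by
  by_contra hv'
  have h1 : v ∉ A := fun h2 => hv ⟨v, h2, Or.inl rfl⟩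
  have h2 : IsM τ out (insert v A) := by
    refine ⟨?_, ?_, ?_⟩
    · intro a ha b hb hab
      rw [mem_insert] at ha hb
      rcases ha with rfl | ha <;> rcases hb with rfl | hb
      · rfl
      · exact absurd ⟨b, hb, Or.inl hab.symm⟩ hv
      · exact absurd ⟨a, ha, Or.inl hab⟩ hv
      · exact hA.m1 a ha b hb hab
    · intro a ha b hb hab
      rw [mem_insert] at ha hb
      rcases ha with rfl | ha <;> rcases hb with rfl | hb
      · rfl
      · exact absurd ⟨b, hb, Or.inr hab.symm⟩ hv'
      · exact absurd ⟨a, ha, Or.inr hab⟩ hv'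
      · exact hA.m2 a ha b hb hab
    · intro a ha b hb hab
      rw [mem_insert] at ha hb
      rcases ha with rfl | ha <;> rcases hb with rfl | hb
      · exact h.ne _ hab.symm
      · exact hv ⟨b, hb, Or.inr hab.symm⟩
      · exact hv' ⟨a, ha, Or.inl hab⟩
      · exact hA.m3 a ha b hb hab
  have h3 := hmax _ h2
  rw [card_insert_of_notMem h1] at h3
  omega

/-- the function of a maximum matching is minus dominating, and tight somewhere near every vertex -/
theorem fA_dom {τ : V → H} {out : V → V} (h : IsTF τ out) {A : Finset V} (hA : IsM τ out A)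
    (hmax : ∀ B, IsM τ out B → B.card ≤ A.card) (v : V) :
    1 ≤ cs τ out (fA τ out A) v ∧ ∃ u ∈ nb τ out v, cs τ out (fA τ out A) u = 1 := by
  classical
  by_cases hc : Cov τ out A (τ v)
  · obtain ⟨a, ha, h3 | h3⟩ := hc
    · -- the triangle of a, sum 1
      have hout : out a ∉ A := fun h4 => hA.m3 _ h4 a ha rfl
      have h4 : cs τ out (fA τ out A) a = 1 := by
        rw [cs_eq h, sum_fib_neg h hA ha, fA, if_neg hout, h.inv, if_pos ha]
        norm_num
      refine ⟨?_, a, mem_nb.2 (Or.inr h3), h4⟩
      rw [cs_eq h, ← h3, sum_fib_neg h hA ha]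
      have h5 : 0 ≤ fA τ out A (out v) := by
        rw [fA, if_neg, h.inv]
        · split_ifs <;> norm_num
        · intro h6
          apply hA.m3 a ha _ h6
          rw [h.inv, h3]
      linarith
    · have h4 : cs τ out (fA τ out A) (out a) = 1 := by
        rw [cs_eq h, sum_fib_pos h hA ha, h.inv, fA, if_pos ha]
        norm_num
      refine ⟨?_, out a, mem_nb.2 (Or.inr h3), h4⟩
      rw [cs_eq h, ← h3, sum_fib_pos h hA ha]
      rcases fA_val (τ := τ) (out := out) (A := A) (out v) with h5 | h5 | h5 <;> rw [h5] <;> norm_num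
  · have h1 := max_cov h hA hmax v hc
    have h2 : cs τ out (fA τ out A) v = 1 := by
      rw [cs_eq h, sum_eq_zero fun u hu => sum_fib_zero h hc u (mem_fib.1 hu), add_zero, fA, if_neg, if_neg,
        if_pos h1]
      · rw [h.inv]
        exact fun h3 => hc ⟨v, h3, Or.inl rfl⟩
      · exact fun h3 => hc ⟨_, h3, Or.inr (by rw [h.inv])⟩
    exact ⟨h2.ge, v, mem_nb.2 (Or.inr rfl), h2⟩

end Pool.Agent.TRF
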