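import Pool.Agent.TRF.Core

/-!
# Upper minus domination versus upper domination: the bound for minimal dominating sets
-/

namespace Pool.Agent.TRF

open Finset

variable {V H : Type*} [Fintype V] [DecidableEq V] [Fintype H] [DecidableEq H]

/-- a set of triangles without an edge between two of them -/
def Ind (τ : V → H) (out : V → V) (T : Finset H) : Prop := ∀ v, τ v ∈ T → τ (out v) ∉ T

open Classical in
/-- the triangles outside `T` which are not joined to `T` -/
noncomputable def zs (τ : V → H) (out : V → V) (T : Finset H) : Finset H :=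
  univ.filter fun h => h ∉ T ∧ ∀ v, τ v = h → τ (out v) ∉ T

theorem mem_zs {τ : V → H} {out : V → V} {T : Finset H} {h : H} :
    h ∈ zs τ out T ↔ h ∉ T ∧ ∀ v, τ v = h → τ (out v) ∉ T := by
  classical
  simp [zs]

/-- the weight of `T` -/
noncomputable def phi (τ : V → H) (out : V → V) (T : Finset H) : ℕ := 3 * T.card + (zs τ out T).card

theorem card_pre {τ : V → H} {out : V → V} (h : IsTF τ out) (S : Finset H) :
    (univ.filter fun v => τ v ∈ S).card = 3 * S.card := by
  rw [card_eq_sum_card_fiberwise (f := τ) (t := S)]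
  · rw [sum_congr rfl (g := fun _ => 3), sum_const, smul_eq_mul, mul_comm]
    intro t ht
    rw [← h.card t]
    congr 1
    ext v
    simp only [mem_filter, mem_univ, true_and, mem_fib]
    constructor
    · exact fun h1 => h1.2
    · exact fun h1 => ⟨by rw [h1]; exact ht, h1⟩
  · intro v hv
    simpa using hv

/-- an independent set of triangles is matched to its neighbours -/
theorem hall {τ : V → H} {out : V → V} (h : IsTF τ out) {T : Finset H} (hT : Ind τ out T) :
    ∃ A, IsM τ out A ∧ A.card = T.card ∧ ∀ a ∈ A, τ a ∈ T := by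
  classical
  let N : {t // t ∈ T} → Finset H := fun t => (fib τ t.1).image fun v => τ (out v)
  obtain ⟨g, hg1, hg2⟩ : ∃ g : {t // t ∈ T} → H, Function.Injective g ∧ ∀ x, g x ∈ N x := by
    rw [← Finset.all_card_le_biUnion_card_iff_exists_injective]
    intro s
    have h1 := card_pre h (s.map (Function.Embedding.subtype _))
    have h2 := card_pre h (s.biUnion N)
    rw [card_map] at h1
    have h3 : (univ.filter fun v => τ v ∈ s.map (Function.Embedding.subtype _)).card
        ≤ (univ.filter fun v => τ v ∈ s.biUnion N).card := by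
      apply card_le_card_of_injOn out
      · intro v hv
        simp only [coe_filter, mem_univ, true_and, Set.mem_setOf_eq, mem_map, mem_biUnion] at hv ⊢
        obtain ⟨t, ht, htv⟩ := hv
        refine ⟨t, ht, ?_⟩
        rw [mem_image]
        exact ⟨v, mem_fib.2 htv.symm, rfl⟩
      · exact h.inj.injOn
    omega
  have h4 : ∀ t : {t // t ∈ T}, ∃ v, τ v = t.1 ∧ τ (out v) = g t := by
    intro t
    obtain ⟨v, hv, hv'⟩ := mem_image.1 (hg2 t)
    exact ⟨v, mem_fib.1 hv, hv'⟩
  choose p hp1 hp2 using h4
  have hpi : Function.Injective p := by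
    intro s t hst
    apply Subtype.ext
    rw [← hp1, ← hp1, hst]
  refine ⟨univ.image p, ⟨?_, ?_, ?_⟩, ?_, ?_⟩
  · intro a ha b hb hab
    simp only [mem_image, mem_univ, true_and] at ha hb
    obtain ⟨s, rfl⟩ := ha
    obtain ⟨t, rfl⟩ := hb
    rw [hp1, hp1] at hab
    rw [Subtype.ext hab]
  · intro a ha b hb hab
    simp only [mem_image, mem_univ, true_and] at ha hb
    obtain ⟨s, rfl⟩ := ha
    obtain ⟨t, rfl⟩ := hb
    rw [hp2, hp2] at hab
    rw [hg1 hab]
  · intro a ha b hb hab
    simp only [mem_image, mem_univ, true_and] at ha hb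
    obtain ⟨s, rfl⟩ := ha
    obtain ⟨t, rfl⟩ := hb
    have h5 := hT (p t) (by rw [hp1]; exact t.2)
    rw [← hab, hp1] at h5
    exact h5 s.2
  · rw [card_image_of_injective _ hpi, card_univ, Fintype.card_coe]
  · intro a ha
    simp only [mem_image, mem_univ, true_and] at ha
    obtain ⟨s, rfl⟩ := ha
    rw [hp1]
    exact s.2

/-- the triangles covered by a matching -/
theorem card_cov {τ : V → H} {out : V → V} {A : Finset V} (hA : IsM τ out A) :
    (A.image τ ∪ A.image fun a => τ (out a)).card = 2 * A.card := by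
  rw [card_union_of_disjoint, card_image_of_injOn, card_image_of_injOn, two_mul]
  · exact fun a ha b hb hab => hA.m2 a ha b hb hab
  · exact fun a ha b hb hab => hA.m1 a ha b hb hab
  · rw [disjoint_left]
    intro t h1 h2
    obtain ⟨a, ha, rfl⟩ := mem_image.1 h1
    obtain ⟨b, hb, hab⟩ := mem_image.1 h2
    exact hA.m3 a ha b hb hab.symm

/-- an optimal independent set of triangles has at most the weight of a matching -/
theorem phi_le {τ : V → H} {out : V → V} (h : IsTF τ out) {T : Finset H} (hT : Ind τ out T)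
    (hmax : ∀ T', Ind τ out T' → phi τ out T' ≤ phi τ out T) :
    ∃ A, IsM τ out A ∧ phi τ out T ≤ 3 * A.card := by
  classical
  obtain ⟨A, hA, hAc, hAT⟩ := hall h hT
  -- a maximal matching inside Z
  let F : Finset (Finset V) := univ.filter fun B => IsM τ out B ∧ ∀ b ∈ B, τ b ∈ zs τ out T ∧ τ (out b) ∈ zs τ out T
  have hF : F.Nonempty := ⟨∅, by simp only [F, mem_filter, mem_univ, true_and]; exact ⟨⟨by simp, by simp, by simp⟩, by simp⟩⟩
  obtain ⟨B, hBF, hBmax⟩ := exists_max_image F card hF
  simp only [F, mem_filter, mem_univ, true_and] at hBF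
  obtain ⟨hB, hBZ⟩ := hBF
  set C := B.image τ ∪ B.image fun a => τ (out a) with hC
  have hCc : C.card = 2 * B.card := card_cov hB
  have hCZ : C ⊆ zs τ out T := by
    intro t ht
    rcases mem_union.1 ht with h1 | h1
    · obtain ⟨b, hb, rfl⟩ := mem_image.1 h1
      exact (hBZ b hb).1
    · obtain ⟨b, hb, rfl⟩ := mem_image.1 h1
      exact (hBZ b hb).2
  set Q := zs τ out T \ C with hQ
  have hQc : Q.card + 2 * B.card = (zs τ out T).card := by
    rw [← hCc, hQ, card_sdiff_add_card_eq_card hCZ]
  -- Q is independent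
  have hQi : ∀ v, τ v ∈ Q → τ (out v) ∉ Q := by
    intro v hv hv'
    rw [hQ, mem_sdiff] at hv hv'
    have hvB : v ∉ B := fun h1 => hv.2 (mem_union_left _ (mem_image_of_mem _ h1))
    have e1 : ∀ b ∈ B, τ b ≠ τ v := fun b hb h1 => hv.2 (by rw [← h1]; exact mem_union_left _ (mem_image_of_mem _ hb))
    have e2 : ∀ b ∈ B, τ (out b) ≠ τ v := fun b hb h1 => hv.2 (by
      rw [← h1]; exact mem_union_right _ (mem_image_of_mem (fun a => τ (out a)) hb))
    have e3 : ∀ b ∈ B, τ b ≠ τ (out v) := fun b hb h1 => hv'.2 (by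
      rw [← h1]; exact mem_union_left _ (mem_image_of_mem _ hb))
    have e4 : ∀ b ∈ B, τ (out b) ≠ τ (out v) := fun b hb h1 => hv'.2 (by
      rw [← h1]; exact mem_union_right _ (mem_image_of_mem (fun a => τ (out a)) hb))
    have h2 : insert v B ∈ F := by
      simp only [F, mem_filter, mem_univ, true_and]
      refine ⟨⟨?_, ?_, ?_⟩, ?_⟩
      · intro a ha b hb hab
        rw [mem_insert] at ha hb
        rcases ha with rfl | ha <;> rcases hb with rfl | hb
        · rfl
        · exact absurd hab.symm (e1 b hb)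
        · exact absurd hab (e1 a ha)
        · exact hB.m1 a ha b hb hab
      · intro a ha b hb hab
        rw [mem_insert] at ha hb
        rcases ha with rfl | ha <;> rcases hb with rfl | hb
        · rfl
        · exact absurd hab.symm (e4 b hb)
        · exact absurd hab (e4 a ha)
        · exact hB.m2 a ha b hb hab
      · intro a ha b hb hab
        rw [mem_insert] at ha hb
        rcases ha with rfl | ha <;> rcases hb with rfl | hb
        · exact h.ne _ hab.symm
        · exact e2 b hb hab.symm
        · exact e3 a ha hab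
        · exact hB.m3 a ha b hb hab
      · intro b hb
        rcases mem_insert.1 hb with rfl | hb
        · exact ⟨hv.1, hv'.1⟩
        · exact hBZ b hb
    have h3 := hBmax _ h2
    rw [card_insert_of_notMem hvB] at h3
    omega
  have hQZ : ∀ t ∈ Q, t ∈ zs τ out T := fun t ht => (mem_sdiff.1 ht).1
  have hTQ : Disjoint T Q := by
    rw [disjoint_left]
    intro t h1 h2
    exact (mem_zs.1 (hQZ t h2)).1 h1
  have hI : Ind τ out (T ∪ Q) := by
    intro v hv hv'
    rcases mem_union.1 hv with h1 | h1 <;> rcases mem_union.1 hv' with h2 | h2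
    · exact hT v h1 h2
    · exact (mem_zs.1 (hQZ _ h2)).2 (out v) rfl (by rw [h.inv]; exact h1)
    · exact (mem_zs.1 (hQZ _ h1)).2 v rfl h2
    · exact hQi v h1 h2
  have h5 := hmax _ hI
  rw [phi, phi, card_union_of_disjoint hTQ] at h5
  have h6 : 3 * Q.card ≤ (zs τ out T).card := by omega
  have hAZ : ∀ a ∈ A, τ a ∉ zs τ out T ∧ τ (out a) ∉ zs τ out T := by
    intro a ha
    refine ⟨fun h1 => (mem_zs.1 h1).1 (hAT a ha), fun h1 => ?_⟩
    exact (mem_zs.1 h1).2 (out a) rfl (by rw [h.inv]; exact hAT a ha)
  have hAB : Disjoint A B := by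
    rw [disjoint_left]
    intro a h1 h2
    exact (hAZ a h1).1 (hBZ a h2).1
  refine ⟨A ∪ B, ⟨?_, ?_, ?_⟩, ?_⟩
  · intro a ha b hb hab
    rcases mem_union.1 ha with ha | ha <;> rcases mem_union.1 hb with hb | hb
    · exact hA.m1 a ha b hb hab
    · exact absurd (by rw [hab]; exact (hBZ b hb).1) (hAZ a ha).1
    · exact absurd (by rw [← hab]; exact (hBZ a ha).1) (hAZ b hb).1
    · exact hB.m1 a ha b hb hab
  · intro a ha b hb hab
    rcases mem_union.1 ha with ha | ha <;> rcases mem_union.1 hb with hb | hb
    · exact hA.m2 a ha b hb hab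
    · exact absurd (by rw [hab]; exact (hBZ b hb).2) (hAZ a ha).2
    · exact absurd (by rw [← hab]; exact (hBZ a ha).2) (hAZ b hb).2
    · exact hB.m2 a ha b hb hab
  · intro a ha b hb hab
    rcases mem_union.1 ha with ha | ha <;> rcases mem_union.1 hb with hb | hb
    · exact hA.m3 a ha b hb hab
    · exact (hAZ a ha).1 (by rw [hab]; exact (hBZ b hb).2)
    · exact (hAZ b hb).2 (by rw [← hab]; exact (hBZ a ha).1)
    · exact hB.m3 a ha b hb hab
  · rw [phi, card_union_of_disjoint hAB, hAc]
    omega

/-- the size of a minimal dominating set -/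
theorem card_le {τ : V → H} {out : V → V} (h : IsTF τ out) (D : Finset V)
    (hdom : ∀ v, ∃ u ∈ nb τ out v, u ∈ D)
    (hmin : ∀ w ∈ D, ∃ x, w ∈ nb τ out x ∧ ∀ u ∈ nb τ out x, u ∈ D → u = w) :
    ∃ T, Ind τ out T ∧ D.card ≤ phi τ out T := by
  classical
  let T : Finset H := univ.filter fun t => ∀ v ∈ D, τ v ≠ t
  have hT : ∀ t, t ∈ T ↔ ∀ v ∈ D, τ v ≠ t := by
    intro t
    simp [T]
  refine ⟨T, ?_, ?_⟩
  · intro v h1 h2
    obtain ⟨u, hu, huD⟩ := hdom v
    rcases mem_nb.1 hu with rfl | h3
    · exact (hT _).1 h2 _ huD rfl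
    · exact (hT _).1 h1 u huD h3
  -- the private neighbours
  have key : ∀ w ∈ D, ∀ w' ∈ D, w ≠ w' → τ w = τ w' → τ (out w) ∈ T := by
    intro w hw w' hw' hne hww
    obtain ⟨x, hx, hpriv⟩ := hmin w hw
    have h1 : τ x ≠ τ w := by
      intro h1
      exact hne (hpriv w' (mem_nb.2 (Or.inr (by rw [h1, hww]))) hw').symm
    have h2 : w = out x := by
      rcases mem_nb.1 hx with h2 | h2
      · exact h2
      · exact absurd h2.symm h1
    rw [h2, h.inv, hT]
    intro v hv h3
    have h4 := hpriv v (mem_nb.2 (Or.inr h3)) hv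
    exact h1 (by rw [← h3, h4])
  have hcount : D.card = ∑ t : H, (D.filter fun v => τ v = t).card :=
    card_eq_sum_card_fiberwise fun v _ => mem_univ _
  have hfib : ∀ t : H, (D.filter fun v => τ v = t).card
      ≤ (univ.filter fun v => τ v = t ∧ τ (out v) ∈ T).card + if t ∈ zs τ out T then 1 else 0 := by
    intro t
    by_cases h1 : 1 < (D.filter fun v => τ v = t).card
    · refine le_trans (card_le_card ?_) (Nat.le_add_right _ _)
      intro w hw
      rw [mem_filter] at hw
      obtain ⟨w', hw', hne⟩ := exists_mem_ne h1 w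
      rw [mem_filter] at hw'
      rw [mem_filter]
      exact ⟨mem_univ _, hw.2, key w hw.1 w' hw'.1 hne.symm (by rw [hw.2, hw'.2])⟩
    · by_cases h2 : ∃ v, τ v = t ∧ τ (out v) ∈ T
      · obtain ⟨v, hv⟩ := h2
        have h3 : 0 < (univ.filter fun v => τ v = t ∧ τ (out v) ∈ T).card :=
          card_pos.2 ⟨v, mem_filter.2 ⟨mem_univ _, hv⟩⟩
        omega
      · by_cases h3 : t ∈ T
        · have h4 : (D.filter fun v => τ v = t) = ∅ := by
            rw [filter_eq_empty_iff]
            intro v hv
            exact (hT t).1 h3 v hv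
          rw [h4, card_empty]
          exact Nat.zero_le _
        · have h4 : t ∈ zs τ out T := mem_zs.2 ⟨h3, fun v hv h5 => h2 ⟨v, hv, h5⟩⟩
          rw [if_pos h4]
          omega
  have hsum : ∑ t : H, (univ.filter fun v => τ v = t ∧ τ (out v) ∈ T).card = 3 * T.card := by
    rw [← card_pre h T]
    have h1 : (univ.filter fun v => τ v ∈ T).card = (univ.filter fun v => τ (out v) ∈ T).card := by
      apply card_bij (fun v _ => out v)
      · intro v hv
        simp only [mem_filter, mem_univ, true_and] at hv ⊢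
        rwa [h.inv]
      · exact fun a _ b _ hab => h.inj hab
      · intro v hv
        simp only [mem_filter, mem_univ, true_and] at hv
        exact ⟨out v, by simpa using hv, h.inv v⟩
    rw [h1, card_eq_sum_card_fiberwise (f := τ) (t := univ) fun v _ => mem_univ _]
    refine sum_congr rfl fun t _ => ?_
    congr 1
    ext v
    simp only [mem_filter, mem_univ, true_and]
    exact and_comm
  rw [hcount, phi, ← hsum]
  refine le_trans (sum_le_sum fun t _ => hfib t) ?_
  rw [sum_add_distrib]
  refine Nat.add_le_add_left (le_of_eq ?_) _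
  rw [sum_ite_mem, univ_inter, sum_const, smul_eq_mul, mul_one]

end Pool.Agent.TRF
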