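import Pool.Agent.TRF.Upper

/-!
# Upper domination is at most upper minus domination for cubic graphs in which every vertex lies in exactly one triangle
-/

namespace Pool.Agent.TRF.Variant

open Finset

variable {V : Type*} [Fintype V] [DecidableEq V]

/-- the sum of `f` over the closed neighbourhood of `v` -/
def csum (G : SimpleGraph V) [DecidableRel G.Adj] (f : V → ℤ) (v : V) : ℤ := f v + ∑ u ∈ G.neighborFinset v, f u

/-- `f` is a minus dominating function: values in `{-1, 0, 1}`, every closed neighbourhood sum is at least `1` -/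
def IsMinusDom (G : SimpleGraph V) [DecidableRel G.Adj] (f : V → ℤ) : Prop :=
  (∀ v, f v = -1 ∨ f v = 0 ∨ f v = 1) ∧ ∀ v, 1 ≤ csum G f v

/-- `f` is a minimal minus dominating function -/
def IsMinimalMinusDom (G : SimpleGraph V) [DecidableRel G.Adj] (f : V → ℤ) : Prop :=
  IsMinusDom G f ∧ ∀ g, IsMinusDom G g → (∀ v, g v ≤ f v) → g = f

/-- the upper minus domination number -/
noncomputable def upperMinus (G : SimpleGraph V) [DecidableRel G.Adj] : ℤ :=
  sSup {w : ℤ | ∃ f : V → ℤ, IsMinimalMinusDom G f ∧ ∑ v, f v = w}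

/-- `D` is a dominating set -/
def IsDom (G : SimpleGraph V) (D : Finset V) : Prop := ∀ v, v ∈ D ∨ ∃ u ∈ D, G.Adj v u

/-- `D` is a minimal dominating set -/
def IsMinimalDom (G : SimpleGraph V) (D : Finset V) : Prop := IsDom G D ∧ ∀ E, E ⊂ D → ¬ IsDom G E

/-- the upper domination number -/
noncomputable def upperDom (G : SimpleGraph V) : ℕ := sSup {k : ℕ | ∃ D : Finset V, IsMinimalDom G D ∧ D.card = k}

theorem csum_eq (G : SimpleGraph V) [DecidableRel G.Adj] (f : V → ℤ) (v : V) :
    csum G f v = ∑ u ∈ insert v (G.neighborFinset v), f u := by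
  rw [csum, sum_insert]
  rw [SimpleGraph.mem_neighborFinset]
  exact G.loopless.irrefl v

/-- the triangle and the outer neighbour of a vertex -/
theorem exists_tri (G : SimpleGraph V) [DecidableRel G.Adj] (hG : G.IsRegularOfDegree 3)
    (ht : ∀ v, ∃! t : Finset V, v ∈ t ∧ G.IsNClique 3 t) :
    ∃ (tri : V → Finset V) (out : V → V), (∀ v, v ∈ tri v) ∧ (∀ v, (tri v).card = 3) ∧
      (∀ u v, u ∈ tri v → tri u = tri v) ∧ (∀ v, out (out v) = v) ∧ (∀ v, out v ∉ tri v) ∧
      ∀ v, insert v (G.neighborFinset v) = insert (out v) (tri v) := by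
  choose tri h1 h2 using ht
  have h3 : ∀ v, v ∈ tri v := fun v => (h1 v).1
  have h4 : ∀ v, G.IsNClique 3 (tri v) := fun v => (h1 v).2
  have h5 : ∀ u v, u ∈ tri v → tri u = tri v := fun u v huv => (h2 u (tri v) ⟨huv, h4 v⟩).symm
  have h6 : ∀ v, (tri v).card = 3 := fun v => (h4 v).card_eq
  have h7 : ∀ v, (tri v).erase v ⊆ G.neighborFinset v := by
    intro v u hu
    rw [mem_erase] at hu
    rw [SimpleGraph.mem_neighborFinset]
    exact (h4 v).1 (h3 v) hu.2 hu.1.symm
  have h8 : ∀ v, ∃ w, G.neighborFinset v \ (tri v).erase v = {w} := by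
    intro v
    rw [← card_eq_one, card_sdiff_of_subset (h7 v), card_erase_of_mem (h3 v), h6, SimpleGraph.card_neighborFinset_eq_degree,
      hG v]
  choose out hout using h8
  have h9 : ∀ v, G.Adj v (out v) ∧ out v ∉ tri v := by
    intro v
    have h10 : out v ∈ G.neighborFinset v \ (tri v).erase v := by
      rw [hout v]
      exact mem_singleton_self _
    rw [mem_sdiff, SimpleGraph.mem_neighborFinset, mem_erase, not_and] at h10
    exact ⟨h10.1, h10.2 h10.1.ne'⟩
  have h10 : ∀ u v, G.Adj u v → v ∉ tri u → v = out u := by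
    intro u v huv hv
    have h11 : v ∈ G.neighborFinset u \ (tri u).erase u := by
      rw [mem_sdiff, SimpleGraph.mem_neighborFinset, mem_erase]
      exact ⟨huv, fun h12 => hv h12.2⟩
    rw [hout u, mem_singleton] at h11
    exact h11
  refine ⟨tri, out, h3, h6, h5, ?_, fun v => (h9 v).2, ?_⟩
  · intro v
    refine (h10 (out v) v (h9 v).1.symm ?_).symm
    intro h11
    apply (h9 v).2
    rw [h5 v (out v) h11]
    exact h3 _
  · intro v
    ext u
    rw [mem_insert, mem_insert, SimpleGraph.mem_neighborFinset]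
    constructor
    · rintro (rfl | h11)
      · exact Or.inr (h3 u)
      · by_cases h12 : u ∈ tri v
        · exact Or.inr h12
        · exact Or.inl (h10 v u h11 h12)
    · rintro (rfl | h11)
      · exact Or.inr (h9 v).1
      · by_cases h12 : u = v
        · exact Or.inl h12
        · exact Or.inr ((h4 v).1 (h3 v) h11 (Ne.symm h12))

/-- a minus dominating function with a tight vertex near every vertex is minimal -/
theorem minimal_of_tight (G : SimpleGraph V) [DecidableRel G.Adj] (f : V → ℤ) (hf : IsMinusDom G f)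
    (h : ∀ v, ∃ u ∈ insert v (G.neighborFinset v), csum G f u = 1) : IsMinimalMinusDom G f := by
  refine ⟨hf, fun g hg hgf => ?_⟩
  by_contra hne
  obtain ⟨v, hv⟩ := Function.ne_iff.1 hne
  obtain ⟨u, hu, hu1⟩ := h v
  have h1 : v ∈ insert u (G.neighborFinset u) := by
    rw [mem_insert, SimpleGraph.mem_neighborFinset] at hu ⊢
    rcases hu with rfl | hu
    · exact Or.inl rfl
    · exact Or.inr hu.symm
  have h2 : csum G g u < csum G f u := by
    rw [csum_eq, csum_eq]
    exact sum_lt_sum (fun w _ => hgf w) ⟨v, h1, lt_of_le_of_ne (hgf v) hv⟩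
  have h3 := hg.2 u
  omega

/-- for a cubic graph in which every vertex lies in exactly one triangle the upper domination number is at most the upper
minus domination number -/
theorem result {V : Type*} [Fintype V] [DecidableEq V] (G : SimpleGraph V) [DecidableRel G.Adj]
    (hG : G.IsRegularOfDegree 3) (ht : ∀ v, ∃! t : Finset V, v ∈ t ∧ G.IsNClique 3 t) :
    (upperDom G : ℤ) ≤ upperMinus G := by
  classical
  obtain ⟨tri, out, h1, h2, h3, h4, h5, h6⟩ := exists_tri G hG ht
  let τ : V → Set.range tri := fun v => ⟨tri v, v, rfl⟩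
  have hτ : ∀ u v, τ u = τ v ↔ u ∈ tri v := by
    intro u v
    constructor
    · intro h7
      have h8 : tri u = tri v := congrArg Subtype.val h7
      rw [← h8]
      exact h1 u
    · intro h7
      exact Subtype.ext (h3 u v h7)
  have hTF : TRF.IsTF τ out := by
    refine ⟨?_, h4, ?_⟩
    · rintro ⟨t, v, rfl⟩
      have h7 : TRF.fib τ ⟨tri v, v, rfl⟩ = tri v := by
        ext u
        rw [TRF.mem_fib]
        exact hτ u v
      rw [h7, h2]
    · intro v h7
      exact h5 v ((hτ _ _).1 h7)
  have hnb : ∀ v, insert v (G.neighborFinset v) = TRF.nb τ out v := by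
    intro v
    ext u
    rw [h6 v, TRF.mem_nb, mem_insert, hτ]
  -- a maximum matching
  let F : Finset (Finset V) := univ.filter fun B => TRF.IsM τ out B
  have hF : F.Nonempty := ⟨∅, by
    simp only [F, mem_filter, mem_univ, true_and]
    exact ⟨by simp, by simp, by simp⟩⟩
  obtain ⟨A, hAF, hAmax⟩ := exists_max_image F card hF
  have hA : TRF.IsM τ out A := (mem_filter.1 hAF).2
  have hmax : ∀ B, TRF.IsM τ out B → B.card ≤ A.card := fun B hB => hAmax B (mem_filter.2 ⟨mem_univ _, hB⟩)
  -- the lower bound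
  have hcs : ∀ v, csum G (TRF.fA τ out A) v = TRF.cs τ out (TRF.fA τ out A) v := by
    intro v
    rw [csum_eq, hnb, TRF.cs]
  have hfm : IsMinimalMinusDom G (TRF.fA τ out A) := by
    apply minimal_of_tight
    · exact ⟨fun v => TRF.fA_val v, fun v => by rw [hcs]; exact (TRF.fA_dom hTF hA hmax v).1⟩
    · intro v
      obtain ⟨u, hu, hu1⟩ := (TRF.fA_dom hTF hA hmax v).2
      exact ⟨u, by rw [hnb]; exact hu, by rw [hcs, hu1]⟩
  have hlow : (3 * A.card : ℤ) ≤ upperMinus G := by
    rw [← TRF.sum_fA hTF hA]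
    apply le_csSup
    · refine ⟨Fintype.card V, ?_⟩
      rintro w ⟨f, hf, rfl⟩
      have h7 : ∀ v, f v ≤ 1 := by
        intro v
        rcases hf.1.1 v with h8 | h8 | h8 <;> rw [h8] <;> norm_num
      calc ∑ v, f v ≤ ∑ _v : V, (1 : ℤ) := sum_le_sum fun v _ => h7 v
        _ = Fintype.card V := by simp
    · exact ⟨_, hfm, rfl⟩
  -- the upper bound
  have hup : ∀ D, IsMinimalDom G D → D.card ≤ 3 * A.card := by
    intro D hD
    have hdom : ∀ v, ∃ u ∈ TRF.nb τ out v, u ∈ D := by
      intro v
      rw [← hnb]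
      rcases hD.1 v with h7 | ⟨u, hu, hvu⟩
      · exact ⟨v, mem_insert_self _ _, h7⟩
      · exact ⟨u, mem_insert_of_mem ((SimpleGraph.mem_neighborFinset _ _ _).2 hvu), hu⟩
    have hmin : ∀ w ∈ D, ∃ x, w ∈ TRF.nb τ out x ∧ ∀ u ∈ TRF.nb τ out x, u ∈ D → u = w := by
      intro w hw
      have h7 := hD.2 (D.erase w) (erase_ssubset hw)
      rw [IsDom] at h7
      push Not at h7
      obtain ⟨x, hx1, hx2⟩ := h7
      have h8 : ∀ u ∈ TRF.nb τ out x, u ∈ D → u = w := by
        intro u hu huD
        by_contra hne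
        rw [← hnb, mem_insert, SimpleGraph.mem_neighborFinset] at hu
        rcases hu with rfl | hu
        · exact hx1 (mem_erase.2 ⟨hne, huD⟩)
        · exact hx2 u (mem_erase.2 ⟨hne, huD⟩) hu
      refine ⟨x, ?_, h8⟩
      obtain ⟨u, hu, huD⟩ := hdom x
      rw [← h8 u hu huD]
      exact hu
    obtain ⟨T, hT, hDT⟩ := TRF.card_le hTF D hdom hmin
    let I : Finset (Finset (Set.range tri)) := univ.filter fun T => TRF.Ind τ out T
    obtain ⟨T', hT'I, hT'max⟩ := exists_max_image I (TRF.phi τ out) ⟨T, mem_filter.2 ⟨mem_univ _, hT⟩⟩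
    obtain ⟨B, hB, hTB⟩ := TRF.phi_le hTF (mem_filter.1 hT'I).2
      fun S hS => hT'max S (mem_filter.2 ⟨mem_univ _, hS⟩)
    have h7 := hT'max T (mem_filter.2 ⟨mem_univ _, hT⟩)
    have h8 := hmax B hB
    omega
  have h9 : upperDom G ≤ 3 * A.card := by
    rw [upperDom]
    by_cases hne : {k : ℕ | ∃ D : Finset V, IsMinimalDom G D ∧ D.card = k}.Nonempty
    · apply csSup_le hne
      rintro k ⟨D, hD, rfl⟩
      exact hup D hD
    · rw [Set.not_nonempty_iff_eq_empty] at hne
      rw [hne]
      simp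
  have h10 : (upperDom G : ℤ) ≤ 3 * A.card := by exact_mod_cast h9
  exact h10.trans hlow

end Pool.Agent.TRF.Variant
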